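import Pool.Agent.H11.NY.Targets
import Pool.Agent.H11.NS.Targets

/-!
# Board ny, module RP: chief factors give irreducible representations
-/

set_option autoImplicit false

namespace Pool.Agent.H47.NY.RP

open Pool.Agent.H11.NY

/-- a perfect subgroup which is a `p`-group is trivial -/
theorem perfect_pgroup {Q : Type} [Group Q] [Finite Q] (l : ℕ) (hl : l.Prime) (V : Subgroup Q)
    (hV : IsPGroup l V) (hp : ⁅V, V⁆ = V) : V = ⊥ := by
  by_contra hne
  have : Fact l.Prime := ⟨hl⟩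
  have : Nontrivial V := (Subgroup.nontrivial_iff_ne_bot V).2 hne
  have hnil : Group.IsNilpotent V := hV.isNilpotent
  have hlt := Group.IsSolvable.commutator_lt_top_of_nontrivial V
  have h1 : Subgroup.map V.subtype ⁅(⊤ : Subgroup V), (⊤ : Subgroup V)⁆
      < Subgroup.map V.subtype ⊤ := Subgroup.map_subtype_lt_map_subtype.2 hlt
  rw [Subgroup.map_commutator, ← MonoidHom.range_eq_map, Subgroup.range_subtype, hp] at h1
  exact lt_irrefl _ h1

/-- the module of an elementary abelian section -/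
theorem rep (hRH : Pool.Agent.H11.NS.T_RH) {H : Type} [Group H] (A B : Subgroup H)
    (hAn : A.Normal) (hBn : B.Normal) (l : ℕ)
    (hab : ∀ x ∈ A, ∀ y ∈ A, x * y * x⁻¹ * y⁻¹ ∈ B) (hexp : ∀ x ∈ A, x ^ l ∈ B) :
    ∃ (W : Type) (_ : AddCommGroup W) (_ : Module (ZMod l) W) (ρ : H →* Module.End (ZMod l) W)
      (F : A → W), Function.Surjective F ∧ (∀ x y : A, F (x * y) = F x + F y) ∧
      (∀ x y : A, F x = F y ↔ (x : H) * (y : H)⁻¹ ∈ B) ∧
      ∀ (y : H) (x : A), ρ y (F x) = F ⟨y * (x : H) * y⁻¹, hAn.conj_mem x x.2 y⟩ := by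
  have hVn : (A.map (QuotientGroup.mk' B)).Normal :=
    hAn.map (QuotientGroup.mk' B) (QuotientGroup.mk'_surjective B)
  have hmem : ∀ x : H, (QuotientGroup.mk' B x = 1) ↔ x ∈ B := fun x => QuotientGroup.eq_one_iff x
  have c1 : ∀ u ∈ A.map (QuotientGroup.mk' B), ∀ v ∈ A.map (QuotientGroup.mk' B),
      u * v = v * u := by
    intro u hu v hv
    obtain ⟨x, hx, rfl⟩ := Subgroup.mem_map.1 hu
    obtain ⟨y, hy, rfl⟩ := Subgroup.mem_map.1 hv
    have h1 := (hmem _).2 (hab x hx y hy)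
    rw [map_mul, map_mul, map_mul, map_inv, map_inv, mul_inv_eq_one, mul_inv_eq_iff_eq_mul] at h1
    exact h1
  have c2 : ∀ u ∈ A.map (QuotientGroup.mk' B), u ^ l = 1 := by
    intro u hu
    obtain ⟨x, hx, rfl⟩ := Subgroup.mem_map.1 hu
    rw [← map_pow]
    exact (hmem _).2 (hexp x hx)
  have c3 : ∀ x ∈ (MonoidHom.id (H ⧸ B)).ker, ∀ v ∈ A.map (QuotientGroup.mk' B),
      x * v * x⁻¹ = v := by
    intro x hx v _
    have h1 : x = 1 := hx
    rw [h1]
    group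
  obtain ⟨W, i1, i2, ρ, f, hf, hρ⟩ := hRH (H ⧸ B) (H ⧸ B) (MonoidHom.id _)
    Function.surjective_id (A.map (QuotientGroup.mk' B)) hVn l c1 c2 c3
  refine ⟨W, i1, i2, ρ.comp (QuotientGroup.mk' B),
    fun x => f ⟨QuotientGroup.mk' B x, Subgroup.mem_map_of_mem _ x.2⟩, ?_, ?_, ?_, ?_⟩
  · intro w
    obtain ⟨v, hv⟩ := f.surjective w
    obtain ⟨x, hx, hxv⟩ := Subgroup.mem_map.1 v.2
    refine ⟨⟨x, hx⟩, ?_⟩
    rw [← hv]
    exact congrArg f (Subtype.ext hxv)
  · intro x y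
    rw [← hf]
    rfl
  · intro x y
    rw [f.injective.eq_iff, Subtype.mk.injEq, ← hmem, map_mul, map_inv, mul_inv_eq_one]
  · intro y x
    have h1 := hρ (QuotientGroup.mk' B y) ⟨QuotientGroup.mk' B x, Subgroup.mem_map_of_mem _ x.2⟩
    have h2 : (MonoidHom.id (H ⧸ B)) (QuotientGroup.mk' B y) = QuotientGroup.mk' B y := rfl
    rw [h2] at h1
    exact h1

/-- chief factors are elementary abelian -/
theorem chief {H : Type} [Group H] [Finite H] (l : ℕ) (hl : l.Prime) (A B : Subgroup H)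
    (hAn : A.Normal) (hBn : B.Normal) (hBA : B < A) (hp : IsPGroup l A)
    (hmin : ∀ M : Subgroup H, M.Normal → B ≤ M → M ≤ A → M = B ∨ M = A) :
    (∀ x ∈ A, ∀ y ∈ A, x * y * x⁻¹ * y⁻¹ ∈ B) ∧ ∀ x ∈ A, x ^ l ∈ B := by
  have : Fact l.Prime := ⟨hl⟩
  have hmem : ∀ x : H, (QuotientGroup.mk' B x = 1) ↔ x ∈ B := fun x => QuotientGroup.eq_one_iff x
  have hVne : A.map (QuotientGroup.mk' B) ≠ ⊥ := by
    intro h
    apply hBA.not_ge
    intro x hx
    rw [← hmem]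
    have h1 : QuotientGroup.mk' B x ∈ A.map (QuotientGroup.mk' B) := Subgroup.mem_map_of_mem _ hx
    rw [h] at h1
    exact Subgroup.mem_bot.1 h1
  have hVp : IsPGroup l (A.map (QuotientGroup.mk' B)) := hp.map _
  have hAB : ⁅A, A⁆ ≤ B := by
    have hcn : (⁅A, A⁆ ⊔ B).Normal := inferInstance
    have hle : ⁅A, A⁆ ⊔ B ≤ A := sup_le (Subgroup.commutator_le_left A A) hBA.le
    rcases hmin _ hcn le_sup_right hle with h | h
    · rw [← h]
      exact le_sup_left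
    · exfalso
      apply hVne
      apply perfect_pgroup l hl _ hVp
      rw [← Subgroup.map_commutator]
      have h1 : (⁅A, A⁆ ⊔ B).map (QuotientGroup.mk' B) = A.map (QuotientGroup.mk' B) := by rw [h]
      rw [Subgroup.map_sup] at h1
      have h2 : B.map (QuotientGroup.mk' B) = ⊥ := by
        rw [Subgroup.map_eq_bot_iff, QuotientGroup.ker_mk']
      rw [h2, sup_bot_eq] at h1
      exact h1
  have hcomm : ∀ x ∈ A, ∀ y ∈ A, x * y * x⁻¹ * y⁻¹ ∈ B := by
    intro x hx y hy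
    exact hAB (Subgroup.commutator_mem_commutator hx hy)
  refine ⟨hcomm, ?_⟩
  have hc : ∀ x ∈ A, ∀ y ∈ A, Commute (QuotientGroup.mk' B x) (QuotientGroup.mk' B y) := by
    intro x hx y hy
    have h1 := (hmem _).2 (hcomm x hx y hy)
    rw [map_mul, map_mul, map_mul, map_inv, map_inv, mul_inv_eq_one, mul_inv_eq_iff_eq_mul] at h1
    exact h1
  let M : Subgroup H :=
    { carrier := {x | x ∈ A ∧ x ^ l ∈ B}
      one_mem' := ⟨A.one_mem, by rw [one_pow]; exact B.one_mem⟩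
      mul_mem' := by
        rintro x y ⟨hx, hx'⟩ ⟨hy, hy'⟩
        refine ⟨A.mul_mem hx hy, ?_⟩
        rw [← hmem] at hx' hy' ⊢
        rw [map_pow] at hx' hy' ⊢
        rw [map_mul, (hc x hx y hy).mul_pow, hx', hy', one_mul]
      inv_mem' := by
        rintro x ⟨hx, hx'⟩
        refine ⟨A.inv_mem hx, ?_⟩
        rw [inv_pow]
        exact B.inv_mem hx' }
  have hMn : M.Normal := by
    constructor
    rintro x ⟨hx, hx'⟩ g
    refine ⟨hAn.conj_mem x hx g, ?_⟩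
    rw [conj_pow]
    exact hBn.conj_mem _ hx' g
  have hBM : B ≤ M := fun x hx => ⟨hBA.le hx, B.pow_mem hx l⟩
  have hMA : M ≤ A := fun x hx => hx.1
  rcases hmin M hMn hBM hMA with h | h
  · exfalso
    have hdvd : l ∣ Nat.card (A.map (QuotientGroup.mk' B)) := by
      rcases hVp.card_eq_or_dvd with h1 | h1
      · exfalso
        exact hVne (Subgroup.card_eq_one.1 h1)
      · exact h1
    obtain ⟨v, hv⟩ := exists_prime_orderOf_dvd_card' l hdvd
    obtain ⟨x, hx, hxv⟩ := Subgroup.mem_map.1 v.2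
    have hv1 : (v : H ⧸ B) ^ l = 1 := by
      have h1 := pow_orderOf_eq_one v
      rw [hv] at h1
      exact congrArg Subtype.val h1
    have hxM : x ∈ M := by
      refine ⟨hx, ?_⟩
      rw [← hmem, map_pow, hxv]
      exact hv1
    rw [h, ← hmem, hxv] at hxM
    have hv2 : v = 1 := Subtype.ext hxM
    rw [hv2, orderOf_one] at hv
    exact hl.one_lt.ne hv
  · intro x hx
    rw [← h] at hx
    exact hx.2

theorem pf_rp (hRH : Pool.Agent.H11.NS.T_RH) (hBC : T_BC) (hP2 : T_P2) : T_RP := by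
  intro e
  obtain ⟨B₀, hB₀⟩ := hP2 e
  refine ⟨B₀, ?_⟩
  intro H Ω _ _ _ _ ψ hψ hH hsol l hl A B hAn hBn hBA hAk hp hmin hpair
  have hfact : Fact l.Prime := ⟨hl⟩
  obtain ⟨hab, hexp⟩ := chief l hl A B hAn hBn hBA hp hmin
  obtain ⟨W, i1, i2, ρ, F, hFs, hFm, hFe, hρ⟩ := rep hRH A B hAn hBn l hab hexp
  have hWfin : Finite W := Finite.of_surjective F hFs
  have hF1 : F 1 = 0 := by
    have h1 := hFm 1 1
    rw [mul_one] at h1
    exact left_eq_add.1 h1
  have hF0 : ∀ x : A, F x = 0 ↔ (x : H) ∈ B := by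
    intro x
    rw [← hF1, hFe]
    simp
  have hFinv : ∀ x : A, F x⁻¹ = - F x := by
    intro x
    have h1 := hFm x x⁻¹
    rw [mul_inv_cancel, hF1] at h1
    exact (neg_eq_of_add_eq_zero_right h1.symm).symm
  -- irreducibility
  have hirr : Irr ρ := by
    constructor
    · obtain ⟨x, hxA, hxB⟩ := SetLike.exists_of_lt hBA
      refine ⟨F ⟨x, hxA⟩, ?_⟩
      intro h
      exact hxB ((hF0 _).1 h)
    · intro U hU
      let M : Subgroup H :=
        { carrier := {x | ∃ hx : x ∈ A, F ⟨x, hx⟩ ∈ U}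
          one_mem' := ⟨A.one_mem, by
            have h1 : F ⟨1, A.one_mem⟩ = 0 := hF1
            rw [h1]
            exact U.zero_mem⟩
          mul_mem' := by
            rintro x y ⟨hx, hx'⟩ ⟨hy, hy'⟩
            refine ⟨A.mul_mem hx hy, ?_⟩
            have h1 : F ⟨x * y, A.mul_mem hx hy⟩ = F ⟨x, hx⟩ + F ⟨y, hy⟩ := hFm ⟨x, hx⟩ ⟨y, hy⟩
            rw [h1]
            exact U.add_mem hx' hy'
          inv_mem' := by
            rintro x ⟨hx, hx'⟩
            refine ⟨A.inv_mem hx, ?_⟩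
            have h1 : F ⟨x⁻¹, A.inv_mem hx⟩ = - F ⟨x, hx⟩ := hFinv ⟨x, hx⟩
            rw [h1]
            exact U.neg_mem hx' }
      have hMn : M.Normal := by
        constructor
        rintro x ⟨hx, hx'⟩ g
        refine ⟨hAn.conj_mem x hx g, ?_⟩
        have h1 := hρ g ⟨x, hx⟩
        rw [← h1]
        exact hU g _ hx'
      have hBM : B ≤ M := by
        intro x hx
        refine ⟨hBA.le hx, ?_⟩
        rw [(hF0 ⟨x, hBA.le hx⟩).2 hx]
        exact U.zero_mem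
      have hMA : M ≤ A := fun x hx => hx.1
      rcases hmin M hMn hBM hMA with h | h
      · left
        rw [eq_bot_iff]
        intro w hw
        obtain ⟨x, rfl⟩ := hFs w
        have hxM : (x : H) ∈ M := ⟨x.2, hw⟩
        rw [h] at hxM
        rw [Submodule.mem_bot]
        exact (hF0 x).2 hxM
      · right
        rw [eq_top_iff]
        intro w _
        obtain ⟨x, rfl⟩ := hFs w
        have hxM : (x : H) ∈ M := by
          rw [h]
          exact x.2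
        exact hxM.2
  obtain ⟨V, j1, j2, j3, τ, f, hτ, hfi, hfe, hrel⟩ := hBC l H W ρ hirr
  -- the relation
  have hRel : ∀ (q : ℕ) (a h : H), 0 < q → a ^ q = 1 →
      (∀ x ∈ A, a * x * a⁻¹ * x⁻¹ ∈ B → h * x * h⁻¹ * x⁻¹ ∈ B) → Rel ρ a h q := by
    intro q a h hq ha hh w
    obtain ⟨y, hy⟩ := hFs (∑ j ∈ Finset.range q, ρ (a ^ j) w)
    have h1 : ρ a (∑ j ∈ Finset.range q, ρ (a ^ j) w) = ∑ j ∈ Finset.range q, ρ (a ^ j) w := by
      rw [map_sum]
      have h2 : ∀ j, ρ a (ρ (a ^ j) w) = ρ (a ^ (j + 1)) w := by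
        intro j
        rw [pow_succ', map_mul]
        rfl
      rw [Finset.sum_congr rfl fun j _ => h2 j]
      have h3 := Finset.sum_range_succ' (fun j => ρ (a ^ j) w) q
      have h4 := Finset.sum_range_succ (fun j => ρ (a ^ j) w) q
      rw [h4] at h3
      have h5 : ρ (a ^ q) w = ρ (a ^ 0) w := by rw [ha, pow_zero]
      rw [h5] at h3
      exact (add_right_cancel h3).symm
    rw [← hy] at h1 ⊢
    rw [hρ, hFe] at h1
    rw [hρ, hFe]
    exact hh y y.2 h1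
  have hcast : ∀ q : ℕ, q.Prime → q ≠ l → (q : AlgebraicClosure (ZMod l)) ≠ 0 := by
    intro q hq hql h
    have : CharP (AlgebraicClosure (ZMod l)) l := inferInstance
    rw [CharP.cast_eq_zero_iff (AlgebraicClosure (ZMod l)) l] at h
    exact hql ((Nat.prime_dvd_prime_iff_eq hl hq).1 h).symm
  have hloc : LocRep ψ e τ := by
    apply hB₀ H Ω ψ hψ hH hsol (AlgebraicClosure (ZMod l)) V τ hτ
    intro r hr
    obtain ⟨q, p, a, h, hqr, hql, hpl, hP, hh⟩ := hpair r hr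
    refine ⟨q, p, a, h, hqr, hP, hcast q hP.1 hql, hcast p hP.2.2.2.1 hpl, ?_⟩
    exact hrel a h q (hRel q a h hP.1.pos hP.2.2.2.2.2.1 hh)
  intro Δ Δ' hd hΔ hΔ' D D' hD hD' d hdD d' hdD' x hx
  have h1 := hloc Δ Δ' hd hΔ hΔ' D D' hD hD' d hdD d' hdD' (f (F ⟨x, hx⟩))
  rw [← hfe, ← hfe, ← hfe, ← map_sub, ← map_sub, ← map_add] at h1
  have h2 : ρ d (ρ d' (F ⟨x, hx⟩)) - ρ d (F ⟨x, hx⟩) - ρ d' (F ⟨x, hx⟩) + F ⟨x, hx⟩ = 0 :=
    hfi (h1.trans (map_zero f).symm)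
  have hyA : d' * x * d'⁻¹ * x⁻¹ ∈ A := A.mul_mem (hAn.conj_mem x hx d') (A.inv_mem hx)
  have h3 : F ⟨d' * x * d'⁻¹ * x⁻¹, hyA⟩ = ρ d' (F ⟨x, hx⟩) - F ⟨x, hx⟩ := by
    have h4 := hFm ⟨d' * x * d'⁻¹, hAn.conj_mem x hx d'⟩ (⟨x, hx⟩⁻¹)
    rw [hFinv, ← hρ d' ⟨x, hx⟩] at h4
    rw [sub_eq_add_neg]
    exact h4
  have h5 : ρ d (F ⟨d' * x * d'⁻¹ * x⁻¹, hyA⟩) = F ⟨d' * x * d'⁻¹ * x⁻¹, hyA⟩ := by
    rw [h3, map_sub]
    rw [← sub_eq_zero, ← h2]
    abel
  rw [hρ, hFe] at h5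
  exact h5

end Pool.Agent.H47.NY.RP
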