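import Pool.Agent.H11.NY.Targets
import Pool.Agent.H11.NS.Targets

/-!
# Board ny, module SR
-/

set_option autoImplicit false

namespace Pool.Agent.H47.NY.SR

open Pool.Agent.H11.NY

theorem pf_sr (hFP : Pool.Agent.H11.NS.T_FP) : T_SR := by
  intro L _ _ K₀ A B hKB hBA hAn hBn l q p hl hq hp hql hpl hqK hA a h P ha hPa hPn hPp hhP x hx hax
  have hqB : ¬ q ∣ Nat.card B := by
    intro hdvd
    have : Fact q.Prime := ⟨hq⟩
    obtain ⟨b, hb⟩ := exists_prime_orderOf_dvd_card' q hdvd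
    obtain ⟨k, hk⟩ := hA (b : L) (hBA b.2)
    have h1 : orderOf ((b : L)) = q := by rw [Subgroup.orderOf_coe, hb]
    have hcop : Nat.Coprime (orderOf (b : L)) (l ^ k) := by
      rw [h1]
      exact Nat.Coprime.pow_right k ((Nat.coprime_primes hq hl).2 hql)
    have h2 : orderOf ((b : L) ^ (l ^ k)) = q := by
      rw [Nat.Coprime.orderOf_pow hcop, h1]
    apply hqK
    rw [← h2]
    exact Subgroup.orderOf_dvd_natCard K₀ hk
  obtain ⟨k, hkB, hk⟩ := hFP L B hBn q hq hqB a ⟨1, by rw [pow_one]; exact ha⟩ x hax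
  have hyA : x * k ∈ A := A.mul_mem hx (hBA hkB)
  have hzP : h * (x * k) * h⁻¹ * (x * k)⁻¹ ∈ P := by
    have h1 : (x * k) * h⁻¹ * (x * k)⁻¹ ∈ P := hPn (x * k) hk h⁻¹ (P.inv_mem hhP)
    have h2 := P.mul_mem hhP h1
    have e : h * ((x * k) * h⁻¹ * (x * k)⁻¹) = h * (x * k) * h⁻¹ * (x * k)⁻¹ := by group
    rwa [e] at h2
  have hzA : h * (x * k) * h⁻¹ * (x * k)⁻¹ ∈ A :=
    A.mul_mem (hAn.conj_mem _ hyA h) (A.inv_mem hyA)
  obtain ⟨i, hi⟩ := hPp _ hzP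
  obtain ⟨j, hj⟩ := hA _ hzA
  have hz0 : h * (x * k) * h⁻¹ * (x * k)⁻¹ ∈ K₀ := by
    have h1 : orderOf (h * (x * k) * h⁻¹ * (x * k)⁻¹) ∣ p ^ i := orderOf_dvd_of_pow_eq_one hi
    have h2 : Nat.Coprime (l ^ j) (orderOf (h * (x * k) * h⁻¹ * (x * k)⁻¹)) := by
      apply Nat.Coprime.coprime_dvd_right h1
      exact Nat.Coprime.pow j i ((Nat.coprime_primes hl hp).2 (Ne.symm hpl))
    obtain ⟨m, hm⟩ := exists_pow_eq_self_of_coprime h2
    rw [← hm]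
    exact K₀.pow_mem hj m
  have h3 : (x * k) * ((h * k⁻¹ * h⁻¹) * k) * (x * k)⁻¹ ∈ B :=
    hBn.conj_mem _ (B.mul_mem (hBn.conj_mem _ (B.inv_mem hkB) h) hkB) (x * k)
  have h4 := B.mul_mem (hKB hz0) h3
  have e : h * (x * k) * h⁻¹ * (x * k)⁻¹ * ((x * k) * ((h * k⁻¹ * h⁻¹) * k) * (x * k)⁻¹)
      = h * x * h⁻¹ * x⁻¹ := by group
  rwa [e] at h4

end Pool.Agent.H47.NY.SR
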